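import Mathlib

/-!
A normal lattice simplex of dimension five with an interior lattice point whose reduced degrees
are exactly `1` and `3`.
-/

namespace Pool.Agent.Results.MP_751e6a_co.Counter

open Pointwise Topology

variable {n : ℕ}

/-- A lattice point viewed in real space. -/
def toR (a : Fin n → ℤ) : Fin n → ℝ := fun i => (a i : ℝ)

/-- A lattice polytope: the convex hull of finitely many lattice points. -/
def IsLatticePolytope (P : Set (Fin n → ℝ)) : Prop :=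
  ∃ S : Finset (Fin n → ℤ), P = convexHull ℝ (toR '' (S : Set (Fin n → ℤ)))

/-- `P` is normal: for `N ≥ 2` each lattice point of `N P` is a sum of `N` lattice points
of `P`. -/
def IsNormal (P : Set (Fin n → ℝ)) : Prop :=
  ∀ N : ℕ, 2 ≤ N → ∀ a : Fin n → ℤ, toR a ∈ (N : ℝ) • P →
    ∃ f : Fin N → (Fin n → ℤ), (∀ j, toR (f j) ∈ P) ∧ a = ∑ j, f j

/-- `a = a₀ + a'` with `a₀` a lattice point of `r P°` and `a'` a lattice point of `(N - r) P`,
where `1 ≤ r ≤ N`. -/
def Splits (P : Set (Fin n → ℝ)) (N : ℕ) (a : Fin n → ℤ) (r : ℕ) : Prop :=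
  1 ≤ r ∧ r ≤ N ∧ ∃ a₀ a' : Fin n → ℤ, toR a₀ ∈ (r : ℝ) • interior P ∧
    toR a' ∈ ((N - r : ℕ) : ℝ) • P ∧ a = a₀ + a'

/-- The set of reduced `P`-degrees of lattice points of the sets `N P°`, `N ≥ 1`. -/
def reducedDegrees (P : Set (Fin n → ℝ)) : Set ℕ :=
  {r | ∃ N : ℕ, 1 ≤ N ∧ ∃ a : Fin n → ℤ, toR a ∈ (N : ℝ) • interior P ∧
    IsLeast {s | Splits P N a s} r}

/-- The int* degree of `P` is `d`: `d` is the largest reduced degree. -/
def HasIntStarDegree (P : Set (Fin n → ℝ)) (d : ℕ) : Prop := IsGreatest (reducedDegrees P) d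

/-! ### The example -/

/-- The simplex with vertices `0, 4 e₁, 4 e₂, 5 e₃, 7 e₄, 7 e₅`. -/
def P0 : Set (Fin 5 → ℝ) :=
  {x | (∀ i, 0 ≤ x i) ∧ 35 * x 0 + 35 * x 1 + 28 * x 2 + 20 * x 3 + 20 * x 4 ≤ 140}

def vert : Fin 6 → Fin 5 → ℤ :=
  ![![0, 0, 0, 0, 0], ![4, 0, 0, 0, 0], ![0, 4, 0, 0, 0], ![0, 0, 5, 0, 0], ![0, 0, 0, 7, 0],
    ![0, 0, 0, 0, 7]]

lemma convex_P0 : Convex ℝ P0 := by
  intro x hx y hy a b ha hb hab
  refine ⟨fun i => ?_, ?_⟩
  · have := hx.1 i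
    have := hy.1 i
    simp only [Pi.add_apply, Pi.smul_apply, smul_eq_mul]
    positivity
  · have h1 := mul_le_mul_of_nonneg_left hx.2 ha
    have h2 := mul_le_mul_of_nonneg_left hy.2 hb
    simp only [Pi.add_apply, Pi.smul_apply, smul_eq_mul]
    nlinarith

lemma lattice_P0 : IsLatticePolytope P0 := by
  refine ⟨Finset.univ.image vert, Set.Subset.antisymm ?_ (convexHull_min ?_ convex_P0)⟩
  · intro x hx
    obtain ⟨h0, h1⟩ := hx
    let w : Fin 6 → ℝ := ![1 - x 0 / 4 - x 1 / 4 - x 2 / 5 - x 3 / 7 - x 4 / 7, x 0 / 4, x 1 / 4,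
      x 2 / 5, x 3 / 7, x 4 / 7]
    have hx : x = ∑ j, w j • toR (vert j) := by
      funext i
      fin_cases i <;> simp [w, vert, toR, Fin.sum_univ_six]
    rw [hx]
    refine (convex_convexHull ℝ _).sum_mem ?_ ?_ ?_
    · intro j _
      have := h0 0
      have := h0 1
      have := h0 2
      have := h0 3
      have := h0 4
      fin_cases j <;> simp [w] <;> linarith
    · simp [w, Fin.sum_univ_six]
      ring
    · intro j _
      exact subset_convexHull ℝ _ ⟨vert j, by simp, rfl⟩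
  · rintro _ ⟨a, ha, rfl⟩
    simp only [Finset.coe_image, Finset.coe_univ, Set.image_univ, Set.mem_range] at ha
    obtain ⟨j, rfl⟩ := ha
    refine ⟨fun i => ?_, ?_⟩
    · fin_cases j <;> fin_cases i <;> simp [vert, toR]
    · fin_cases j <;> simp [vert, toR] <;> norm_num

lemma push_interior {P : Set (Fin n → ℝ)} {x : Fin n → ℝ} (hx : x ∈ interior P)
    (v : Fin n → ℝ) : ∃ t : ℝ, 0 < t ∧ x + t • v ∈ P := by
  have hc : Continuous fun t : ℝ => x + t • v := by fun_prop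
  have h1 : ∀ᶠ t in 𝓝 (0 : ℝ), x + t • v ∈ interior P :=
    hc.continuousAt.eventually (isOpen_interior.mem_nhds (by simpa using hx))
  have h2 : ∀ᶠ t in 𝓝[>] (0 : ℝ), x + t • v ∈ interior P := h1.filter_mono nhdsWithin_le_nhds
  obtain ⟨t, ht1, ht2⟩ := (h2.and self_mem_nhdsWithin).exists
  exact ⟨t, ht2, interior_subset ht1⟩

lemma interior_P0 : interior P0 =
    {x | (∀ i, 0 < x i) ∧ 35 * x 0 + 35 * x 1 + 28 * x 2 + 20 * x 3 + 20 * x 4 < 140} := by
  apply Set.Subset.antisymm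
  · intro x hx
    refine ⟨fun i => ?_, ?_⟩
    · obtain ⟨t, ht, h⟩ := push_interior hx (fun _ => -1)
      have := h.1 i
      simp only [Pi.add_apply, Pi.smul_apply, smul_eq_mul] at this
      linarith
    · obtain ⟨t, ht, h⟩ := push_interior hx (fun _ => 1)
      have := h.2
      simp only [Pi.add_apply, Pi.smul_apply, smul_eq_mul] at this
      linarith
  · apply interior_maximal
    · exact fun x hx => ⟨fun i => (hx.1 i).le, hx.2.le⟩
    · have h1 : IsOpen {x : Fin 5 → ℝ | ∀ i, 0 < x i} := by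
        rw [Set.ofPred_forall]
        exact isOpen_iInter_of_finite fun i => isOpen_lt continuous_const (continuous_apply i)
      have h2 : IsOpen {x : Fin 5 → ℝ |
          35 * x 0 + 35 * x 1 + 28 * x 2 + 20 * x 3 + 20 * x 4 < 140} :=
        isOpen_lt (by fun_prop) continuous_const
      exact h1.inter h2

/-- The linear form cutting out the simplex. -/
def L (a : Fin 5 → ℤ) : ℤ := 35 * a 0 + 35 * a 1 + 28 * a 2 + 20 * a 3 + 20 * a 4

lemma mem_dil (N : ℕ) (a : Fin 5 → ℤ) :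
    toR a ∈ (N : ℝ) • P0 ↔ (∀ i, 0 ≤ a i) ∧ L a ≤ 140 * N := by
  have hcast : ((∀ i, 0 ≤ a i) ∧ L a ≤ 140 * N) ↔ ((∀ i, 0 ≤ toR a i) ∧
      35 * toR a 0 + 35 * toR a 1 + 28 * toR a 2 + 20 * toR a 3 + 20 * toR a 4 ≤ 140 * N) := by
    unfold L toR
    norm_cast
  rw [hcast]
  generalize toR a = x
  have hN : (0 : ℝ) ≤ N := Nat.cast_nonneg N
  constructor
  · rintro ⟨y, hy, rfl⟩
    refine ⟨fun i => mul_nonneg hN (hy.1 i), ?_⟩
    have := mul_le_mul_of_nonneg_left hy.2 hN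
    simp only [Pi.smul_apply, smul_eq_mul]
    linarith
  · rintro ⟨h0, h1⟩
    rcases hN.eq_or_lt with h | h
    · refine ⟨0, ⟨fun i => le_rfl, by simp⟩, ?_⟩
      rw [← h] at h1
      have := h0 0
      have := h0 1
      have := h0 2
      have := h0 3
      have := h0 4
      funext i
      fin_cases i <;> simp <;> linarith
    · refine ⟨(N : ℝ)⁻¹ • x, ⟨fun i => mul_nonneg (inv_nonneg.2 hN) (h0 i), ?_⟩, ?_⟩
      · have h2 := mul_le_mul_of_nonneg_left h1 (inv_nonneg.2 hN)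
        have h3 : (N : ℝ)⁻¹ * (140 * N) = 140 := by field_simp
        simp only [Pi.smul_apply, smul_eq_mul]
        linarith
      · simp only [smul_smul, mul_inv_cancel₀ h.ne', one_smul]

lemma mem_dil_int (N : ℕ) (hN1 : 1 ≤ N) (a : Fin 5 → ℤ) :
    toR a ∈ (N : ℝ) • interior P0 ↔ (∀ i, 0 < a i) ∧ L a < 140 * N := by
  have hcast : ((∀ i, 0 < a i) ∧ L a < 140 * N) ↔ ((∀ i, 0 < toR a i) ∧
      35 * toR a 0 + 35 * toR a 1 + 28 * toR a 2 + 20 * toR a 3 + 20 * toR a 4 < 140 * N) := by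
    unfold L toR
    norm_cast
  rw [hcast, interior_P0]
  generalize toR a = x
  have hN : (0 : ℝ) < N := by exact_mod_cast hN1
  constructor
  · rintro ⟨y, hy, rfl⟩
    refine ⟨fun i => mul_pos hN (hy.1 i), ?_⟩
    have := mul_lt_mul_of_pos_left hy.2 hN
    simp only [Pi.smul_apply, smul_eq_mul]
    linarith
  · rintro ⟨h0, h1⟩
    refine ⟨(N : ℝ)⁻¹ • x, ⟨fun i => mul_pos (inv_pos.2 hN) (h0 i), ?_⟩, ?_⟩
    · have h2 := mul_lt_mul_of_pos_left h1 (inv_pos.2 hN)
      have h3 : (N : ℝ)⁻¹ * (140 * N) = 140 := by field_simp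
      simp only [Pi.smul_apply, smul_eq_mul]
      linarith
    · simp only [smul_smul, mul_inv_cancel₀ hN.ne', one_smul]

lemma fin_check : ∀ a < 4, ∀ b < 5, ∀ c < 7, ∃ a' ≤ a, ∃ b' ≤ b, ∃ c' ≤ c,
    35 * a' + 28 * b' + 20 * c' ≤ 140 ∧
    35 * a + 28 * b + 20 * c ≤ 280 + (35 * a' + 28 * b' + 20 * c') ∧
    (35 * a + 28 * b + 20 * c ≤ 280 →
      35 * a + 28 * b + 20 * c ≤ 140 + (35 * a' + 28 * b' + 20 * c')) := by
  decide +kernel

/-- Three-variable splitting lemma. -/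
lemma split3 (a b c T : ℤ) (ha : 0 ≤ a) (hb : 0 ≤ b) (hc : 0 ≤ c) (hT : T = 140 ∨ 280 ≤ T)
    (h : 35 * a + 28 * b + 20 * c ≤ T + 140) :
    ∃ a' b' c' : ℤ, 0 ≤ a' ∧ a' ≤ a ∧ 0 ≤ b' ∧ b' ≤ b ∧ 0 ≤ c' ∧ c' ≤ c ∧
      35 * a' + 28 * b' + 20 * c' ≤ 140 ∧
      35 * a + 28 * b + 20 * c ≤ T + (35 * a' + 28 * b' + 20 * c') := by
  by_cases h1 : 4 ≤ a
  · exact ⟨4, 0, 0, by omega, by omega, by omega, by omega, by omega, by omega, by omega, by omega⟩
  by_cases h2 : 5 ≤ b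
  · exact ⟨0, 5, 0, by omega, by omega, by omega, by omega, by omega, by omega, by omega, by omega⟩
  by_cases h3 : 7 ≤ c
  · exact ⟨0, 0, 7, by omega, by omega, by omega, by omega, by omega, by omega, by omega, by omega⟩
  obtain ⟨a', h4, b', h5, c', h6, h7, h8, h9⟩ :=
    fin_check a.toNat (by omega) b.toNat (by omega) c.toNat (by omega)
  exact ⟨a', b', c', by omega, by omega, by omega, by omega, by omega, by omega, by omega,
    by omega⟩

lemma split5 (z : Fin 5 → ℤ) (T : ℤ) (hz : ∀ i, 0 ≤ z i) (hT : T = 140 ∨ 280 ≤ T)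
    (h : L z ≤ T + 140) :
    ∃ b : Fin 5 → ℤ, (∀ i, 0 ≤ b i) ∧ (∀ i, b i ≤ z i) ∧ L b ≤ 140 ∧ L z ≤ T + L b := by
  have h0 := hz 0
  have h1 := hz 1
  have h2 := hz 2
  have h3 := hz 3
  have h4 := hz 4
  unfold L at h
  obtain ⟨a', b', c', k1, k2, k3, k4, k5, k6, k7, k8⟩ :=
    split3 (z 0 + z 1) (z 2) (z 3 + z 4) T (by omega) h2 (by omega) hT (by omega)
  refine ⟨![min a' (z 0), a' - min a' (z 0), b', min c' (z 3), c' - min c' (z 3)], ?_, ?_, ?_, ?_⟩
  · intro i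
    fin_cases i <;> simp <;> omega
  · intro i
    fin_cases i <;> simp <;> omega
  · simp only [L, Matrix.cons_val]
    omega
  · simp only [L, Matrix.cons_val]
    omega

lemma L_add (a b : Fin 5 → ℤ) : L (a + b) = L a + L b := by
  simp only [L, Pi.add_apply]; ring

lemma L_sub (a b : Fin 5 → ℤ) : L (a - b) = L a - L b := by
  simp only [L, Pi.sub_apply]; ring

lemma normal_aux (N : ℕ) : ∀ a : Fin 5 → ℤ, (∀ i, 0 ≤ a i) → L a ≤ 140 * ((N + 1 : ℕ) : ℤ) →
    ∃ f : Fin (N + 1) → (Fin 5 → ℤ), (∀ j, (∀ i, 0 ≤ f j i) ∧ L (f j) ≤ 140) ∧ a = ∑ j, f j := by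
  induction N with
  | zero => exact fun a h0 h1 => ⟨fun _ => a, fun _ => ⟨h0, by simpa using h1⟩, by simp⟩
  | succ N ih =>
    intro a h0 h1
    obtain ⟨b, k1, k2, k3, k4⟩ := split5 a (140 * ((N + 1 : ℕ) : ℤ)) h0 (by push_cast; omega)
      (by push_cast at h1 ⊢; omega)
    obtain ⟨f, hf, hsum⟩ := ih (a - b) (fun i => sub_nonneg.2 (k2 i)) (by rw [L_sub]; omega)
    refine ⟨Fin.cons b f, fun j => ?_, ?_⟩
    · refine Fin.cases ?_ (fun j => ?_) j
      · exact ⟨k1, k3⟩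
      · exact hf j
    · rw [Fin.sum_univ_succ]
      simp only [Fin.cons_zero, Fin.cons_succ]
      rw [← hsum]
      abel

lemma normal_P0 : IsNormal P0 := by
  intro N hN a ha
  obtain ⟨M, rfl⟩ : ∃ M, N = M + 1 := ⟨N - 1, by omega⟩
  rw [mem_dil] at ha
  obtain ⟨f, hf, hsum⟩ := normal_aux M a ha.1 ha.2
  refine ⟨f, fun j => ?_, hsum⟩
  have := (mem_dil 1 (f j)).2 ⟨(hf j).1, by simpa using (hf j).2⟩
  simpa using this

lemma splits_iff (N : ℕ) (a : Fin 5 → ℤ) (r : ℕ) : Splits P0 N a r ↔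
    1 ≤ r ∧ r ≤ N ∧ ∃ a₀ a' : Fin 5 → ℤ, ((∀ i, 0 < a₀ i) ∧ L a₀ < 140 * r) ∧
      ((∀ i, 0 ≤ a' i) ∧ L a' ≤ 140 * ((N : ℤ) - r)) ∧ a = a₀ + a' := by
  unfold Splits
  refine and_congr_right fun h1 => and_congr_right fun h2 => ?_
  simp only [mem_dil_int r h1, mem_dil]
  rw [Nat.cast_sub h2]

lemma exists_le_three (N : ℕ) : ∀ a : Fin 5 → ℤ, 1 ≤ N → (∀ i, 0 < a i) → L a < 140 * N →
    ∃ r ≤ 3, Splits P0 N a r := by
  induction N with
  | zero => intro a h; omega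
  | succ N ih =>
    intro a _ h0 h1
    by_cases hN : N + 1 ≤ 3
    · refine ⟨N + 1, hN, (splits_iff _ _ _).2 ⟨by omega, le_rfl, a, 0, ⟨h0, h1⟩,
        ⟨fun i => le_rfl, by simp [L]⟩, by simp⟩⟩
    · have hone : L (fun _ => 1) = 138 := by simp [L]
      obtain ⟨b, k1, k2, k3, k4⟩ := split5 (a - fun _ => 1) (140 * N - 139)
        (fun i => by have := h0 i; simp only [Pi.sub_apply]; omega) (by omega)
        (by rw [L_sub, hone]; push_cast at h1; omega)
      rw [L_sub, hone] at k4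
      obtain ⟨r, hr, hs⟩ := ih (a - b) (by omega)
        (fun i => by have := k2 i; simp only [Pi.sub_apply] at this ⊢; omega)
        (by rw [L_sub]; omega)
      obtain ⟨r1, r2, a₀, a', m1, m2, m3⟩ := (splits_iff _ _ _).1 hs
      refine ⟨r, hr, (splits_iff _ _ _).2 ⟨r1, by omega, a₀, a' + b, m1,
        ⟨fun i => add_nonneg (m2.1 i) (k1 i), ?_⟩, ?_⟩⟩
      · rw [L_add]
        have := m2.2
        push_cast
        omega
      · rw [← add_assoc, ← m3]
        abel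

lemma ne_279 (a : Fin 5 → ℤ) (h : ∀ i, 0 < a i) : L a ≠ 279 := by
  have h0 := h 0
  have h1 := h 1
  have h2 := h 2
  have h3 := h 3
  have h4 := h 4
  unfold L
  omega

lemma two_to_one {N : ℕ} {a : Fin 5 → ℤ} (h : Splits P0 N a 2) : Splits P0 N a 1 := by
  obtain ⟨_, r2, a₀, a', m1, m2, m3⟩ := (splits_iff _ _ _).1 h
  have hone : L (fun _ => 1) = 138 := by simp [L]
  refine (splits_iff _ _ _).2 ⟨le_rfl, by omega, fun _ => 1, (a₀ - fun _ => 1) + a',
    ⟨fun i => one_pos, by rw [hone]; norm_num⟩, ⟨fun i => ?_, ?_⟩, ?_⟩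
  · have := m1.1 i
    have := m2.1 i
    simp only [Pi.add_apply, Pi.sub_apply]
    omega
  · rw [L_add, L_sub, hone]
    have := ne_279 a₀ m1.1
    have := m1.2
    have := m2.2
    push_cast at *
    omega
  · rw [m3]
    abel

lemma reduced_eq : reducedDegrees P0 = {1, 3} := by
  have hone : L (fun _ => 1) = 138 := by simp [L]
  apply Set.Subset.antisymm
  · rintro r ⟨N, hN, a, ha, hr⟩
    rw [mem_dil_int N hN] at ha
    obtain ⟨s, hs, hs'⟩ := exists_le_three N a hN ha.1 ha.2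
    have h1 : r ≤ s := hr.2 hs'
    have h2 : 1 ≤ r := hr.1.1
    have h3 : r ≠ 2 := by
      rintro rfl
      have := hr.2 (two_to_one hr.1)
      omega
    simp only [Set.mem_insert_iff, Set.mem_singleton_iff]
    omega
  · rintro r (rfl | rfl)
    · refine ⟨1, le_rfl, fun _ => 1, (mem_dil_int 1 le_rfl _).2
        ⟨fun i => one_pos, by rw [hone]; norm_num⟩, ?_, fun s hs => hs.1⟩
      exact (splits_iff _ _ _).2 ⟨le_rfl, le_rfl, fun _ => 1, 0,
        ⟨fun i => one_pos, by rw [hone]; norm_num⟩, ⟨fun i => le_rfl, by simp [L]⟩, by simp⟩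
    · have hpos : ∀ i, 0 < (![4, 1, 3, 7, 1] : Fin 5 → ℤ) i := by decide
      have hL : L ![4, 1, 3, 7, 1] = 419 := by decide
      refine ⟨3, by norm_num, ![4, 1, 3, 7, 1], (mem_dil_int 3 (by norm_num) _).2
        ⟨hpos, by rw [hL]; norm_num⟩, ?_, fun s hs => ?_⟩
      · exact (splits_iff _ _ _).2 ⟨by norm_num, le_rfl, _, 0,
          ⟨hpos, by rw [hL]; norm_num⟩, ⟨fun i => le_rfl, by simp [L]⟩, by simp⟩
      · obtain ⟨r1, r2, a₀, a', m1, m2, m3⟩ := (splits_iff _ _ _).1 hs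
        rw [m3, L_add] at hL
        by_contra hlt
        have h279 := ne_279 a₀ m1.1
        have k1 := m1.2
        have k2 := m2.2
        have h0 := m1.1 0
        have h1 := m1.1 1
        have h2 := m1.1 2
        have h3 := m1.1 3
        have h4 := m1.1 4
        have hs12 : s = 1 ∨ s = 2 := by omega
        rcases hs12 with rfl | rfl
        · push_cast at k1 k2
          have : L a₀ = 139 := by omega
          unfold L at this
          omega
        · push_cast at k1 k2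
          omega

/-- A normal lattice polytope in `ℝ⁵` with an interior lattice point and int* degree `3` in
which no lattice point of any `N P°` has reduced degree `2`. -/
theorem result : ∃ P : Set (Fin 5 → ℝ), IsLatticePolytope P ∧ IsNormal P ∧
    (∃ a : Fin 5 → ℤ, toR a ∈ interior P) ∧ HasIntStarDegree P 3 ∧ 2 ∉ reducedDegrees P := by
  refine ⟨P0, lattice_P0, normal_P0, ⟨fun _ => 1, ?_⟩, ?_, ?_⟩
  · have := (mem_dil_int 1 le_rfl (fun _ => 1)).2 ⟨fun i => one_pos, by simp [L]⟩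
    simpa using this
  · unfold HasIntStarDegree
    rw [reduced_eq]
    refine ⟨by simp, ?_⟩
    rintro r (rfl | rfl) <;> norm_num
  · rw [reduced_eq]
    simp

end Pool.Agent.Results.MP_751e6a_co.Counter
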